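import Pool.Agent.MP_b7033c_al.ChainDefs
import Pool.Agent.MP_b7033c_al.Chain

set_option autoImplicit false

namespace Pool.Agent.Results.MP_b7033c_al.CentraliserChains

open Pool.Agent.MP_b7033c_al.Chain

/-- A finite subset of the kernel generates a finite group if, for each prime `q` dividing the
order of one of its elements, the invariant nilpotent `q`-subgroups above some such subgroup `K`
carry no infinite descending chain of centralisers. -/
theorem result :
  ∀ (G : Type) [Group G] (a : G) (F : Subgroup G),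
    (orderOf a).Prime →
    (∀ g : G, g ∉ Subgroup.zpowers a →
      ∀ x ∈ Subgroup.zpowers a, g * x * g⁻¹ ∈ Subgroup.zpowers a → x = 1) →
    (∀ x : G, x ∈ F ↔ (x = 1 ∨ ∀ g : G, ∀ k : ℤ, x ≠ g * a ^ k * g⁻¹)) →
    (∀ x : G, ∃ f ∈ F, ∃ k : ℤ, x = f * a ^ k) →
    (∀ g : G, Finite (Subgroup.closure ({a, g * a * g⁻¹} : Set G))) →
    ∀ s : Finset G, (↑s : Set G) ⊆ (F : Set G) →
      (∀ x ∈ s, ∀ q : ℕ, q.Prime → q ∣ orderOf x → ∃ K : Subgroup G, InvNil a F q K ∧
        ∀ N : Subgroup G, K ≤ N → InvNil a F q N → NoChain F N) →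
      Finite (Subgroup.closure (s : Set G)) :=
  fun _ _ a F hp hmal hF _ hfin s hs H => main a F hp hmal hF hfin s hs H

end Pool.Agent.Results.MP_b7033c_al.CentraliserChains
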