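import Pool.Agent.Mg.Fb7033cp.Ga6f301

set_option autoImplicit false

namespace Pool.Agent.Results.MP_b7033c_al.ClassTwo

open Pool.Agent.MP_b7033c_al

/-- The kernel is locally finite if each `x` in the kernel commutes with the commutator of `x` and
`a ^ k * x * (a ^ k)⁻¹` for all `k`. -/
theorem result :
  ∀ (G : Type) [Group G] (a : G) (F : Subgroup G),
    (orderOf a).Prime →
    (∀ g : G, g ∉ Subgroup.zpowers a →
      ∀ x ∈ Subgroup.zpowers a, g * x * g⁻¹ ∈ Subgroup.zpowers a → x = 1) →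
    (∀ x : G, x ∈ F ↔ (x = 1 ∨ ∀ g : G, ∀ k : ℤ, x ≠ g * a ^ k * g⁻¹)) →
    (∀ x : G, ∃ f ∈ F, ∃ k : ℤ, x = f * a ^ k) →
    (∀ g : G, Finite (Subgroup.closure ({a, g * a * g⁻¹} : Set G))) →
    (∀ x ∈ F, ∀ k : ℤ, ∀ y : G, y = a ^ k * x * (a ^ k)⁻¹ → Commute (x * y * x⁻¹ * y⁻¹) x) →
    ∀ s : Finset G, (↑s : Set G) ⊆ (F : Set G) →
      Finite (Subgroup.closure (s : Set G)) := by
  intro G _ a F hp _ hF _ hfin hc s hs
  have hn : F.Normal := ⟨fun x hx g => by
    rcases (hF x).1 hx with rfl | h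
    · simp
    · refine (hF _).2 (Or.inr fun g' k e => h (g⁻¹ * g') k ?_)
      calc x = g⁻¹ * (g * x * g⁻¹) * g := by group
        _ = _ := by rw [e]; group⟩
  have out : ∀ g, g ∉ F → ∃ h, ∃ k : ℤ, g = h * a ^ k * h⁻¹ := fun g hg => by
    by_contra h
    exact hg ((hF g).2 (Or.inr fun h' k e => h ⟨h', k, e⟩))
  have hpow : ∀ m : ℕ, 0 < m → m < orderOf a → a ^ m ∉ F := fun m h1 h2 h =>
    ((hF _).1 h).elim (pow_ne_one_of_lt_orderOf h1.ne' h2) fun h => h 1 m (by simp)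
  have hxa : ∀ x ∈ F, ∃ h, ∃ k : ℤ, x * a = h * a ^ k * h⁻¹ := fun x hx => out _ fun h =>
    hpow 1 one_pos hp.one_lt (by simpa using F.mul_mem (F.inv_mem hx) h)
  refine Hyp.lf ⟨hn, fun x hx => ?_, fun x hx => ?_, fun x hx g hg => ?_⟩ s s.finite_toSet hs
  · obtain ⟨h, k, e⟩ := hxa x hx
    have := hfin h
    have h1 : x ∈ Subgroup.closure ({a, h * a * h⁻¹} : Set G) := by
      rw [← mul_inv_cancel_right x a, e, ← conj_zpow]
      exact mul_mem (zpow_mem (Subgroup.subset_closure (by simp)) _)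
        (inv_mem (Subgroup.subset_closure (by simp)))
    exact Submonoid.isOfFinOrder_coe.2 (isOfFinOrder_of_finite (⟨x, h1⟩ : Subgroup.closure _))
  · obtain ⟨h, k, e⟩ := hxa x hx
    have h1 : (x * a) ^ orderOf a = 1 := by
      rw [e, conj_pow, ← zpow_natCast, ← zpow_mul, mul_comm k, zpow_mul, zpow_natCast,
        pow_orderOf_eq_one]
      group
    have h2 : ∀ m : ℕ, m < orderOf a → ∃ t ∈ Subgroup.closure {t | ∃ g, g ∉ F ∧ t = cj x g},
        (x * a) ^ (m + 1) = x * t * a ^ (m + 1) := by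
      intro m
      induction m with
      | zero => exact fun _ => ⟨1, one_mem _, by simp⟩
      | succ m ih =>
        intro hm
        obtain ⟨t, ht, e⟩ := ih (by omega)
        refine ⟨t * cj x (a ^ (m + 1))⁻¹, mul_mem ht (Subgroup.subset_closure ⟨_, fun h =>
          hpow _ m.succ_pos hm (by simpa using F.inv_mem h), rfl⟩), ?_⟩
        rw [pow_succ, e, pow_succ a (m + 1)]; unfold cj; group
    obtain ⟨t, ht, e⟩ := h2 (orderOf a - 1) (by have := hp.pos; omega)
    rw [Nat.sub_add_cancel hp.pos, h1, pow_orderOf_eq_one, mul_one] at e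
    have h3 := inv_mem ht
    rwa [← eq_inv_of_mul_eq_one_left e.symm] at h3
  · obtain ⟨h, k, e⟩ := out g⁻¹ fun h => hg (by simpa using F.inv_mem h)
    have h2 := (comm_cj (hc _ (hn.conj_mem _ (F.inv_mem hx) h⁻¹) k _ rfl) h⁻¹).inv_right
    convert h2 using 1
    · rw [← inv_inv g, e]; unfold cj cm; group
    · unfold cj; group

end Pool.Agent.Results.MP_b7033c_al.ClassTwo
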