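import Pool.Agent.Mg.Fb7033cp.G2b8706

set_option autoImplicit false

namespace Pool.Agent.Results.MP_b7033c_al.OrderFive

open Pool.Agent.MP_b7033c_al

/-- The kernel is locally finite if `a` has order five, the kernel is a `q`-group for a prime
`q = 5 k + 1`, and any two cyclic subgroups of the kernel normalised by `a` generate a finite
subgroup. -/
theorem result :
  ∀ (G : Type) [Group G] (a : G) (F : Subgroup G) (q : ℕ),
    orderOf a = 5 → q.Prime → q % 5 = 1 →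
    (∀ g : G, g ∉ Subgroup.zpowers a →
      ∀ x ∈ Subgroup.zpowers a, g * x * g⁻¹ ∈ Subgroup.zpowers a → x = 1) →
    (∀ x : G, x ∈ F ↔ (x = 1 ∨ ∀ g : G, ∀ k : ℤ, x ≠ g * a ^ k * g⁻¹)) →
    (∀ x : G, ∃ f ∈ F, ∃ k : ℤ, x = f * a ^ k) →
    (∀ g : G, Finite (Subgroup.closure ({a, g * a * g⁻¹} : Set G))) →
    (∀ x ∈ F, ∃ k : ℕ, x ^ q ^ k = 1) →
    (∀ x ∈ F, ∀ y ∈ F, a * x * a⁻¹ ∈ Subgroup.zpowers x → a * y * a⁻¹ ∈ Subgroup.zpowers y →
      Finite (Subgroup.closure ({x, y} : Set G))) →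
    ∀ s : Finset G, (↑s : Set G) ⊆ (F : Set G) →
      Finite (Subgroup.closure (s : Set G)) := by
  intro G _ a F q ha hq h5 _ hF _ hfin hp hc s hs
  have : Fact q.Prime := ⟨hq⟩
  have hn : F.Normal := ⟨fun x hx g => by
    rcases (hF x).1 hx with rfl | h
    · simp
    · refine (hF _).2 (Or.inr fun g' k e => h (g⁻¹ * g') k ?_)
      calc x = g⁻¹ * (g * x * g⁻¹) * g := by group
        _ = _ := by rw [e]; group⟩
  have a5 : a ^ 5 = 1 := ha ▸ pow_orderOf_eq_one a
  have hxa : ∀ x ∈ F, ∃ h, ∃ k : ℤ, x * a = h * a ^ k * h⁻¹ := fun x hx => by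
    by_contra h
    have h1 : a ∈ F := by
      simpa using F.mul_mem (F.inv_mem hx) ((hF _).2 (Or.inr fun h' k e => h ⟨h', k, e⟩))
    rcases (hF a).1 h1 with rfl | h2
    · simp at ha
    · exact h2 1 1 (by simp)
  have fs : ∀ A : Subgroup G, Finite A → Finite (A.subgroupOf F) := fun A _ =>
    Finite.of_injective (fun x : A.subgroupOf F => (⟨x.1.1, x.2⟩ : A)) fun x y h =>
      Subtype.ext (Subtype.ext (congrArg (fun t : A => (t : G)) h))
  have H : Five.Hy q (MulAut.conjNormal a : MulAut F).toMonoidHom := by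
    refine ⟨fun x => Subtype.ext ?_, fun x => ?_, fun x => Subtype.ext ?_, fun x => ?_,
      fun x y hx hy => ?_⟩
    · change a * (a * (a * (a * (a * x * a⁻¹) * a⁻¹) * a⁻¹) * a⁻¹) * a⁻¹ = x
      calc _ = a ^ 5 * x * (a ^ 5)⁻¹ := by simp [pow_succ, mul_assoc]
        _ = _ := by rw [a5]; group
    · obtain ⟨k, hk⟩ := hp x x.2
      exact ⟨k, Subtype.ext hk⟩
    · obtain ⟨h, k, e⟩ := hxa x x.2
      have h1 : ((x : G) * a) ^ 5 = 1 := by
        rw [e, conj_pow, ← zpow_natCast, ← zpow_mul, mul_comm k, zpow_mul, zpow_natCast, a5]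
        group
      change x * (a * x * a⁻¹) * (a * (a * x * a⁻¹) * a⁻¹) * (a * (a * (a * x * a⁻¹) * a⁻¹) * a⁻¹) *
        (a * (a * (a * (a * x * a⁻¹) * a⁻¹) * a⁻¹) * a⁻¹) = (1 : G)
      calc _ = ((x : G) * a) ^ 5 * (a ^ 5)⁻¹ := by simp only [pow_succ]; group
        _ = _ := by rw [h1, a5]; group
    · obtain ⟨h, k, e⟩ := hxa x x.2
      have h0 : a ∈ Subgroup.closure ({a, h * a * h⁻¹} : Set G) := Subgroup.subset_closure (by simp)
      refine ⟨_, fs _ (hfin h), ?_, fun y hy => mul_mem (mul_mem h0 hy) (inv_mem h0)⟩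
      rw [Subgroup.mem_subgroupOf, ← mul_inv_cancel_right (x : G) a, e, ← conj_zpow]
      exact mul_mem (zpow_mem (Subgroup.subset_closure (by simp)) _) (inv_mem h0)
    · obtain ⟨n, hx⟩ := hx
      obtain ⟨m, hy⟩ := hy
      have := fs _ (hc x x.2 y y.2 ⟨n, congrArg Subtype.val hx⟩ ⟨m, congrArg Subtype.val hy⟩)
      refine Finite.of_injective _ (Subgroup.inclusion_injective
        ((Subgroup.closure_le ((Subgroup.closure ({↑x, ↑y} : Set G)).subgroupOf F)).2 ?_))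
      rintro _ (rfl | rfl) <;> exact Subgroup.subset_closure (by simp)
  refine Five.lf_map (H.lf h5) F.subtype F.subtype_injective s s.finite_toSet fun x hx => ?_
  exact ⟨⟨x, hs hx⟩, trivial, rfl⟩

end Pool.Agent.Results.MP_b7033c_al.OrderFive
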