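import Pool.Agent.Mg.Fb7033cp.G5daf84
import Pool.Agent.Mg.Fb7033cp.G6bb3f2
import Pool.Agent.Mg.Fb7033cp.G900cc2
import Pool.Agent.Mg.Fb7033cp.G8b4b25

set_option autoImplicit false

namespace Pool.Agent.Results.MP_b7033c_al.ThreeConjugates

open Pool.Agent.MP_b7033c_al.Three

/-- For the elements `x` of the kernel such that `x` and any two conjugates of `a` generate a finite
group, the powers `x ^ e` generate a locally finite group, with `e` depending on `p` only. -/
theorem result :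
  ∀ p : ℕ, p.Prime → ∃ e : ℕ, 0 < e ∧ ∀ (G : Type) [Group G] (a : G) (F : Subgroup G),
    orderOf a = p →
    (∀ g : G, g ∉ Subgroup.zpowers a →
      ∀ x ∈ Subgroup.zpowers a, g * x * g⁻¹ ∈ Subgroup.zpowers a → x = 1) →
    (∀ x : G, x ∈ F ↔ (x = 1 ∨ ∀ g : G, ∀ k : ℤ, x ≠ g * a ^ k * g⁻¹)) →
    (∀ x : G, ∃ f ∈ F, ∃ k : ℤ, x = f * a ^ k) →
    (∀ g : G, Finite (Subgroup.closure ({a, g * a * g⁻¹} : Set G))) →
    ∀ s : Finset G,
      (∀ x ∈ s, x ∈ F ∧
        ∀ g h : G, Finite (Subgroup.closure ({x, g * a * g⁻¹, h * a * h⁻¹} : Set G))) →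
      Finite (Subgroup.closure ((fun x : G => x ^ e) '' (s : Set G))) := by
  intro p hp
  obtain ⟨n, hG⟩ := graded p hp
  have HL := lieH_of_graded p n hp hG
  obtain ⟨e, he, H⟩ := final2 hp HL (finG (ghf p n hp HL)
    (thoF (npc hh (conf off) quotH (stepA (frob frobA))) normId nilPN p hp)) nilPN
  refine ⟨e, he, fun G _ a F ho hmal hF _ hfin s hs => ?_⟩
  have hn : F.Normal := ⟨fun x hx g => by
    rcases (hF x).1 hx with rfl | h
    · simp
    · refine (hF _).2 (Or.inr fun g' k e => h (g⁻¹ * g') k ?_)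
      calc x = g⁻¹ * (g * x * g⁻¹) * g := by group
        _ = _ := by rw [e]; group⟩
  have out : ∀ g, g ∉ F → ∃ h, ∃ k : ℤ, g = (h * a * h⁻¹) ^ k := fun g hg => by
    by_contra h
    exact hg ((hF g).2 (Or.inr fun h' k e => h ⟨h', k, by rw [e, conj_zpow]⟩))
  have ha1 : a ≠ 1 := fun h1 => hp.one_lt.ne (by rw [← ho, h1, orderOf_one])
  have ha : a ∉ F := fun h => ((hF _).1 h).elim ha1 fun h => h 1 1 (by simp)
  have hap : a ^ p = 1 := ho ▸ pow_orderOf_eq_one a
  have hc : ∀ c, c ∉ F → c ^ p = 1 := fun c h1 => by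
    obtain ⟨h, k, rfl⟩ := out c h1
    rw [← zpow_natCast, ← zpow_mul, mul_comm k, zpow_mul, zpow_natCast, conj_pow, hap]
    group
  have hfin2 : ∀ c d, c ∉ F → d ∉ F → Finite (Subgroup.closure ({c, d} : Set G)) := by
    intro c d h1 h2
    obtain ⟨g, k, rfl⟩ := out c h1
    obtain ⟨h, l, rfl⟩ := out d h2
    have h3 := hfin (g⁻¹ * h)
    have h4 : Finite ((Subgroup.closure ({a, g⁻¹ * h * a * (g⁻¹ * h)⁻¹} : Set G)).map
      (MulAut.conj g).toMonoidHom) := Finite.of_equiv _ ((MulAut.conj g).subgroupMap _).toEquiv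
    rw [MonoidHom.map_closure] at h4
    refine fin_sub h4 ?_
    rw [Set.insert_subset_iff, Set.singleton_subset_iff]
    refine ⟨zpow_mem (Subgroup.subset_closure ?_) k, zpow_mem (Subgroup.subset_closure ?_) l⟩
    exacts [⟨a, by simp, rfl⟩, ⟨_, Or.inr rfl, by simp [mul_assoc]⟩]
  refine H G F a ha hc (fun y hy => ?_) hfin2 _ (s.finite_toSet.image _) ?_
  · let L := Subgroup.closure ({a, y * a} : Set G)
    have : Finite L := hfin2 _ _ ha fun h => ha (by simpa using F.mul_mem (F.inv_mem hy) h)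
    have haL : a ∈ L := Subgroup.subset_closure (by simp)
    have hyL : y ∈ L ⊓ F := ⟨by
      simpa using L.mul_mem (Subgroup.subset_closure (by simp) : y * a ∈ L) (L.inv_mem haL), hy⟩
    have : Finite (L ⊓ F : Subgroup G) :=
      Finite.of_injective _ (Subgroup.inclusion_injective inf_le_left)
    refine ⟨Nat.card (L ⊓ F : Subgroup G), ((Nat.Prime.coprime_iff_not_dvd hp).2 fun hd => ?_).symm,
      congrArg Subtype.val (pow_card_eq_one' (x := (⟨y, hyL⟩ : (L ⊓ F : Subgroup G))))⟩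
    have := Fact.mk hp
    have hno : Subgroup.zpowers a ≤ Subgroup.normalizer ((L ⊓ F : Subgroup G) : Set G) :=
      Subgroup.zpowers_le.2 (Subgroup.mem_normalizer_fintype fun w hw =>
        ⟨L.mul_mem (L.mul_mem haL hw.1) (L.inv_mem haL), hn.conj_mem w hw.2 a⟩)
    let _ : MulAction (Subgroup.zpowers a) (L ⊓ F : Subgroup G) :=
      MulAction.compHom _ ((L ⊓ F).normalizerMonoidHom.comp (Subgroup.inclusion hno))
    have hP : IsPGroup p (Subgroup.zpowers a) :=
      IsPGroup.of_card (n := 1) (by rw [Nat.card_zpowers, ho, pow_one])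
    obtain ⟨v, hv, hv1⟩ := hP.exists_fixed_point_of_prime_dvd_card_of_fixed_point
      (L ⊓ F : Subgroup G) hd (a := 1)
      (fun g => map_one ((L ⊓ F).normalizerMonoidHom (Subgroup.inclusion hno g)))
    have h1 : a * v * a⁻¹ = v := congrArg Subtype.val (hv ⟨a, Subgroup.mem_zpowers a⟩)
    refine ha1 (hmal v (fun h2 => ?_) a (Subgroup.mem_zpowers a) ?_)
    · obtain ⟨k, hk⟩ := h2
      rcases (hF v).1 v.2.2 with h3 | h3
      · exact hv1 (Subtype.ext h3).symm
      · exact h3 1 k (by simpa using hk.symm)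
    · rw [← mul_inv_eq_iff_eq_mul.1 h1, mul_inv_cancel_right]
      exact Subgroup.mem_zpowers a
  · rintro _ ⟨x, hx, rfl⟩
    refine ⟨x, (hs x hx).1, rfl, fun c d h1 h2 => ?_⟩
    obtain ⟨g, k, rfl⟩ := out c h1
    obtain ⟨h, l, rfl⟩ := out d h2
    refine fin_sub ((hs x hx).2 g h) ?_
    rw [Set.insert_subset_iff, Set.insert_subset_iff, Set.singleton_subset_iff]
    exact ⟨Subgroup.subset_closure (by simp), zpow_mem (Subgroup.subset_closure (by simp)) k,
      zpow_mem (Subgroup.subset_closure (by simp)) l⟩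

end Pool.Agent.Results.MP_b7033c_al.ThreeConjugates
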